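import Pool.Agent.MWL.Stmts

/-!
# Squad MWL, row CLO (helper90): closing
-/

set_option autoImplicit false

namespace Pool.Agent.MWL.H90

open Pool.Agent.MVO

theorem close_one (h2 : HvpStmt) (h4 : RmvStmt) (n : ℕ) (R : FC) (d m : ℕ) (hL : LR n R)
    (hD : DM n R d m) (k s : ℕ) (hs : s ≤ k) (T : Finset ℕ) : ∀ a b : ℕ → ℕ, s ∉ T →
    2 ≤ a s → 2 ≤ b s → (∀ i ∈ T, i ≤ k ∧ 2 ≤ a i ∧ 2 ≤ b i) →
    (∀ i ≤ k, i ∉ T → i ≠ s → a i = b i) → (∀ j ≤ k, a j ≡ b j [MOD m]) →
    deg k a ≡ deg k b [MOD d] → R.R k a b := by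
  classical
  have hn : 1 ≤ n := hL.pos
  induction T using Finset.induction_on with
  | empty =>
    intro a b _ has hbs _ hoff hm hdeg
    -- the entries at `s` are congruent mod `d`
    have hdec : ∀ f : ℕ → ℕ, deg k f = f s + ∑ j ∈ (Finset.range (k + 1)).erase s, f j := by
      intro f
      unfold deg
      exact (Finset.add_sum_erase _ _ (Finset.mem_range.mpr (by omega))).symm
    have hrest : ∑ j ∈ (Finset.range (k + 1)).erase s, a j =
        ∑ j ∈ (Finset.range (k + 1)).erase s, b j := by
      refine Finset.sum_congr rfl fun j hj => ?_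
      rw [Finset.mem_erase, Finset.mem_range] at hj
      exact hoff j (by omega) (Finset.notMem_empty j) hj.1
    have hds : a s ≡ b s [MOD d] := by
      rw [hdec a, hdec b, hrest] at hdeg
      exact Nat.ModEq.add_right_cancel' _ hdeg
    obtain ⟨q, hq⟩ := hD.dn
    -- the correction
    have hc : d ∣ b s + (n - 1) * a s := by
      have h1 : b s + (n - 1) * a s ≡ a s + (n - 1) * a s [MOD d] :=
        Nat.ModEq.add_right _ hds.symm
      have h2 : a s + (n - 1) * a s = n * a s := by
        obtain ⟨n', rfl⟩ : ∃ n', n = n' + 1 := ⟨n - 1, by omega⟩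
        simp only [Nat.add_sub_cancel]
        ring
      rw [h2] at h1
      have h3 : n * a s ≡ 0 [MOD d] := by
        rw [Nat.modEq_zero_iff_dvd, hq, mul_assoc]
        exact Dvd.intro _ rfl
      exact (Nat.modEq_zero_iff_dvd).mp (h1.trans h3)
    have r1 := (h4 n R d m hL hD k a).2.1 s (b s + (n - 1) * a s) hs has hc
    set a1 : ℕ → ℕ := fun t => a t + if t = s then b s + (n - 1) * a s else 0 with ha1
    have ha1s : a1 s = a s + (b s + (n - 1) * a s) := by
      rw [ha1]
      simp
    have hmod : a1 s ≡ b s [MOD n] := by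
      rw [ha1s]
      have h2 : a s + (b s + (n - 1) * a s) = n * a s + b s := by
        obtain ⟨n', rfl⟩ : ∃ n', n = n' + 1 := ⟨n - 1, by omega⟩
        simp only [Nat.add_sub_cancel]
        ring
      rw [h2]
      have h3 : n * a s ≡ 0 [MOD n] := by
        rw [Nat.modEq_zero_iff_dvd]
        exact Dvd.intro _ rfl
      have h4 := Nat.ModEq.add_right (b s) h3
      rwa [zero_add] at h4
    have r2 := (h2 n R hL k a1 s hs).2 (b s) (by omega) hbs hmod
    refine R.trans r1 (R.ext (fun j _ => rfl) (fun j hj => ?_) r2)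
    by_cases hjs : j = s
    · subst hjs
      rw [Function.update_self]
    · rw [Function.update_of_ne hjs, ha1]
      simp only [if_neg hjs, add_zero]
      exact hoff j hj (Finset.notMem_empty j) hjs
  | insert i T' hiT ih =>
    intro a b hsT has hbs hT hoff hm hdeg
    have his : i ≠ s := fun h => hsT (by rw [h]; exact Finset.mem_insert_self _ _)
    have hsT' : s ∉ T' := fun h => hsT (Finset.mem_insert_of_mem h)
    obtain ⟨hik, hai, hbi⟩ := hT i (Finset.mem_insert_self _ _)
    have hmn : m ∣ n := hD.md.trans hD.dn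
    obtain ⟨q, hq⟩ := hmn
    set c : ℕ := b i + (n - 1) * a i with hcdef
    have hmc : m ∣ c := by
      have h1 : b i + (n - 1) * a i ≡ a i + (n - 1) * a i [MOD m] :=
        Nat.ModEq.add_right _ (hm i hik).symm
      have h2 : a i + (n - 1) * a i = n * a i := by
        obtain ⟨n', rfl⟩ : ∃ n', n = n' + 1 := ⟨n - 1, by omega⟩
        simp only [Nat.add_sub_cancel]
        ring
      rw [h2] at h1
      have h3 : n * a i ≡ 0 [MOD m] := by
        rw [Nat.modEq_zero_iff_dvd, hq, mul_assoc]
        exact Dvd.intro _ rfl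
      exact (Nat.modEq_zero_iff_dvd).mp (h1.trans h3)
    -- `a + c e_i ~ a + c e_s`
    have r1 := (h4 n R d m hL hD k a).1 i s c hik hs his hai has hmc
    -- add `(n-1) c e_s`
    have r2 := R.add (fun t => if t = s then (n - 1) * c else 0) r1
    -- `a ~ a + n c e_s`
    have r3 := (h2 n R hL k a s hs).2 (a s + n * c) has (by omega) (by
      have h3 : n * c ≡ 0 [MOD n] := by
        rw [Nat.modEq_zero_iff_dvd]
        exact Dvd.intro _ rfl
      have h4 := Nat.ModEq.add_left (a s) h3
      rw [add_zero] at h4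
      exact h4.symm)
    have r4 : R.R k a (fun t => (a t + if t = i then c else 0) +
        if t = s then (n - 1) * c else 0) := by
      refine R.trans r3 (R.symm (R.ext (fun j _ => rfl) (fun j _ => ?_) r2))
      by_cases hjs : j = s
      · subst hjs
        rw [Function.update_self]
        simp only [if_true]
        obtain ⟨n', rfl⟩ : ∃ n', n = n' + 1 := ⟨n - 1, by omega⟩
        simp only [Nat.add_sub_cancel]
        ring
      · rw [Function.update_of_ne hjs]
        simp only [if_neg hjs, add_zero]
    set a2 : ℕ → ℕ := fun t => (a t + if t = i then c else 0) +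
        if t = s then (n - 1) * c else 0 with ha2
    have ha2i : a2 i = a i + c := by
      rw [ha2]
      simp only [if_true, if_neg his, add_zero]
    have ha2s : a2 s = a s + (n - 1) * c := by
      rw [ha2]
      simp only [if_true, if_neg his.symm, add_zero]
    have ha2j : ∀ j, j ≠ i → j ≠ s → a2 j = a j := by
      intro j h1 h2
      rw [ha2]
      simp only [if_neg h1, if_neg h2, add_zero]
    have hmod : a2 i ≡ b i [MOD n] := by
      rw [ha2i, hcdef]
      have h2 : a i + (b i + (n - 1) * a i) = n * a i + b i := by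
        obtain ⟨n', rfl⟩ : ∃ n', n = n' + 1 := ⟨n - 1, by omega⟩
        simp only [Nat.add_sub_cancel]
        ring
      rw [h2]
      have h3 : n * a i ≡ 0 [MOD n] := by
        rw [Nat.modEq_zero_iff_dvd]
        exact Dvd.intro _ rfl
      have h4 := Nat.ModEq.add_right (b i) h3
      rwa [zero_add] at h4
    have r5 := (h2 n R hL k a2 i hik).2 (b i) (by omega) hbi hmod
    have r6 : R.R k a (Function.update a2 i (b i)) := R.trans r4 r5
    have hcong := (h4 n R d m hL hD k a).2.2 _ r6
    refine R.trans r6 (ih (Function.update a2 i (b i)) b hsT' ?_ hbs ?_ ?_ ?_ ?_)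
    · rw [Function.update_of_ne his.symm]
      omega
    · intro j hj
      have hji : j ≠ i := fun h => hiT (h ▸ hj)
      have hjs : j ≠ s := fun h => hsT' (h ▸ hj)
      obtain ⟨h1, h2, h3⟩ := hT j (Finset.mem_insert_of_mem hj)
      rw [Function.update_of_ne hji, ha2j j hji hjs]
      exact ⟨h1, h2, h3⟩
    · intro j hj hjT hjs
      by_cases hji : j = i
      · subst hji
        rw [Function.update_self]
      · rw [Function.update_of_ne hji, ha2j j hji hjs]
        refine hoff j hj (fun h => ?_) hjs
        rcases Finset.mem_insert.mp h with h | h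
        · exact hji h
        · exact hjT h
    · intro j hj
      exact (hcong.1 j hj).symm.trans (hm j hj)
    · exact hcong.2.symm.trans hdeg

theorem clo (_h1 : TrnStmt) (h2 : HvpStmt) (h3 : AbsStmt) (h4 : RmvStmt) : CloStmt := by
  classical
  intro n R d m hL hD k a b S hS hoff hm hdeg
  have hn : 1 ≤ n := hL.pos
  have ra := (h3 n R hL k a).1 S fun i hi => (hS i hi).2.1
  have rb := (h3 n R hL k b).1 S fun i hi => (hS i hi).2.2
  have ca := (h4 n R d m hL hD k a).2.2 _ ra
  have cb := (h4 n R d m hL hD k b).2.2 _ rb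
  refine R.trans ra (R.trans ?_ (R.symm rb))
  rcases S.eq_empty_or_nonempty with h0 | ⟨s, hs⟩
  · subst h0
    refine R.ext (fun j _ => rfl) (fun j hj => ?_) (R.refl k _)
    have := hoff j hj (Finset.notMem_empty j)
    simp only [this]
  · have hge : ∀ f : ℕ → ℕ, ∀ i ∈ S, 2 ≤ f i + if i ∈ S then 2 * n else 0 := by
      intro f i hi
      rw [if_pos hi]
      omega
    refine close_one h2 h4 n R d m hL hD k s (hS s hs).1 (S.erase s) _ _
      (Finset.notMem_erase s S) (hge a s hs) (hge b s hs) ?_ ?_ ?_ ?_
    · intro i hi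
      have hiS := Finset.mem_of_mem_erase hi
      exact ⟨(hS i hiS).1, hge a i hiS, hge b i hiS⟩
    · intro i hi hiT his
      have hiS : i ∉ S := fun h => hiT (Finset.mem_erase.mpr ⟨his, h⟩)
      simp only [if_neg hiS, add_zero]
      exact hoff i hi hiS
    · intro j hj
      exact (ca.1 j hj).symm.trans ((hm j hj).trans (cb.1 j hj))
    · exact ca.2.symm.trans (hdeg.trans cb.2)

end Pool.Agent.MWL.H90
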